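import Pool.Agent.U171.LRo.Crit
import Pool.Agent.H374R2.CofC

/-!
# The inequality of Q1 fails for almost all `q`, for the first time for `q = 14`

For `q > 2` let `F_q` be the field generated by `π` and the numbers `Γ(a / q)` with `1 ≤ a ≤ q - 1` prime to `q`. Q1 asks
whether its transcendence degree is at least `1 + φ(q) / 2` for every `q`.

The multiplication formula of Gauss, `Γ(y) = C_N N^y ∏_{j < N} Γ((y + j) / N)`, says that `log Γ` is a distribution modulo the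
logarithms of the numbers algebraic over `ℚ(π)`, and the reflection formula says that it is odd. For a prime `p` with
`q = p^k m`, `p ∤ m`, and a character `ψ` modulo `m` this gives
`∑_{a mod q, p ∤ a} ψ(a) log Γ(a / q) = (1 - ψ(p)) ∑_{b mod m} ψ(b) log Γ(b / m)`,
so that the component of the primitive values at an odd character `χ` modulo `q` vanishes if the primitive character which
induces `χ` is `1` at some prime divisor of `q`. By Fourier inversion the rank of the primitive values is at most the number of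
the other odd characters. There are `φ(q) / 2` odd characters, and for almost all `q` one of them is degenerate in this sense:
if `q` has two different prime divisors congruent to `3` modulo `4` then one of them is a square modulo the other one.
The first case is `q = 14`, with the identity `Γ(1/14) Γ(9/14) Γ(11/14) = 4 π ^ (3/2)`.
-/

set_option autoImplicit false

open IntermediateField

namespace Pool.Agent.Results.MP_274814_nt.Disproof

/-- The generators of `F_q`: the number `π` and the numbers `Γ(a / q)` with `1 ≤ a ≤ q - 1` and `gcd(a, q) = 1`. -/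
def gens (q : ℕ) : Set ℂ :=
  {(Real.pi : ℂ)} ∪ {z | ∃ a : ℕ, 1 ≤ a ∧ a ≤ q - 1 ∧ Nat.gcd a q = 1 ∧ z = Complex.Gamma ((a : ℂ) / q)}

/-- The field `F_q`. -/
noncomputable def F (q : ℕ) : IntermediateField ℚ ℂ := IntermediateField.adjoin ℚ (gens q)

/-- The number of the odd Dirichlet characters modulo `q` whose primitive character has a value different from `1` at every
prime divisor of `q`. -/
noncomputable def goodCard (q : ℕ) : ℕ :=
  Nat.card {χ : DirichletCharacter ℂ q // χ.Odd ∧ ∀ p : ℕ, p.Prime → p ∣ q → χ.primitiveCharacter p ≠ 1}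

open Pool.Agent.U171.LRo

theorem gens_sub (q : ℕ) [NeZero q] (z : ℂ) (hz : z ∈ gens q) : z = (Real.pi : ℂ) ∨ ∃ u : (ZMod q)ˣ,
    z = ((Real.Gamma ((((u : ZMod q).val : ℚ) / q : ℚ) : ℝ) : ℝ) : ℂ) := by
  rcases hz with hz | ⟨a, ha1, ha2, hg, rfl⟩
  · left
    exact hz
  · right
    refine ⟨ZMod.unitOfCoprime a hg, ?_⟩
    have hlt : a < q := by
      have := NeZero.pos q
      omega
    rw [ZMod.coe_unitOfCoprime, ZMod.val_cast_of_lt hlt, ← Complex.Gamma_ofReal]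
    congr 1
    push_cast
    rfl

theorem bound (q : ℕ) (hq : 2 < q) :
    Algebra.trdeg ℚ (F q) ≤ ((1 + goodCard q : ℕ) : Cardinal) := by
  have : NeZero q := ⟨by omega⟩
  exact trdeg_bound q (by omega) (gens q) (gens_sub q)

theorem bound_lt (q : ℕ) (hq : 2 < q) (h : ∃ χ : DirichletCharacter ℂ q, χ.Odd ∧ ¬ Good χ) :
    Algebra.trdeg ℚ (F q) ≤ ((Nat.totient q / 2 : ℕ) : Cardinal) := by
  have : NeZero q := ⟨by omega⟩
  obtain ⟨χ, h1, h2⟩ := h
  refine (bound q hq).trans ?_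
  exact_mod_cast card_good_lt χ h1 h2

theorem criterion (q p : ℕ) (hq : 2 < q) (hp : p.Prime) (hpq : p ∣ q)
    (h : ∀ n : ℕ, ((p : ℕ) : ZMod (q / p ^ q.factorization p)) ^ n ≠ -1) :
    Algebra.trdeg ℚ (F q) ≤ ((Nat.totient q / 2 : ℕ) : Cardinal) := by
  have : NeZero q := ⟨by omega⟩
  exact bound_lt q hq (degenerate_of_power p hp hpq h)

theorem two (q p r : ℕ) (hp : p.Prime) (hr : r.Prime) (hpr : p ≠ r) (hp4 : p % 4 = 3) (hr4 : r % 4 = 3)
    (hpq : p ∣ q) (hrq : r ∣ q) (hq : 2 < q) :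
    Algebra.trdeg ℚ (F q) ≤ ((Nat.totient q / 2 : ℕ) : Cardinal) := by
  have : NeZero q := ⟨by omega⟩
  exact bound_lt q hq (two_primes p r hp hr hpr hp4 hr4 hpq hrq)

theorem fourteen (q : ℕ) (hq : 2 < q) (h14 : 14 ∣ q) :
    Algebra.trdeg ℚ (F q) ≤ ((Nat.totient q / 2 : ℕ) : Cardinal) := by
  have : NeZero q := ⟨by omega⟩
  have h2 : 2 ∣ q := (by norm_num : 2 ∣ 14).trans h14
  have h7 : 7 ∣ q := (by norm_num : 7 ∣ 14).trans h14
  have hs : IsSquare ((2 : ℕ) : ZMod 7) := ⟨3, by decide⟩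
  exact bound_lt q hq (degenerate_of_power 2 Nat.prime_two h2
    (power_ne_of_square 2 7 Nat.prime_two (by norm_num) (by norm_num) (by norm_num) h7 hs))

theorem not_both {q : ℕ} (h : Algebra.trdeg ℚ (F q) ≤ ((Nat.totient q / 2 : ℕ) : Cardinal)) :
    ¬ ((1 + Nat.totient q / 2 : ℕ) : Cardinal) ≤ Algebra.trdeg ℚ (F q) := by
  intro h1
  have h2 := h1.trans h
  have h3 : 1 + Nat.totient q / 2 ≤ Nat.totient q / 2 := by exact_mod_cast h2
  omega

theorem density (ε : ℝ) (hε : 0 < ε) : ∃ N₀ : ℕ, ∀ N : ℕ, N₀ ≤ N →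
    (({q : ℕ | 2 < q ∧ q ≤ N ∧ ((1 + Nat.totient q / 2 : ℕ) : Cardinal) ≤ Algebra.trdeg ℚ (F q)}.ncard : ℕ) : ℝ) ≤
      ε * N := by
  have h3 := Pool.Agent.H374R2.Cof.natNull_avoid 8 (by norm_num) 3 (by norm_num)
  have h7 := Pool.Agent.H374R2.Cof.natNull_avoid 8 (by norm_num) 7 (by norm_num)
  obtain ⟨N₀, hN₀⟩ := (h3.union h7) ε hε
  refine ⟨N₀, fun N hN => le_trans ?_ (hN₀ N hN)⟩
  have hsub : {q : ℕ | 2 < q ∧ q ≤ N ∧ ((1 + Nat.totient q / 2 : ℕ) : Cardinal) ≤ Algebra.trdeg ℚ (F q)} ⊆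
      ({C | ∀ p : ℕ, p.Prime → p ≡ 3 [MOD 8] → ¬ p ∣ C} ∪ {C | ∀ p : ℕ, p.Prime → p ≡ 7 [MOD 8] → ¬ p ∣ C}) ∩
        Set.Ioc 0 N := by
    intro q hq
    obtain ⟨hq2, hqN, hqb⟩ := hq
    refine ⟨?_, ⟨by omega, hqN⟩⟩
    by_contra hc
    rw [Set.mem_union, not_or] at hc
    obtain ⟨hc1, hc2⟩ := hc
    simp only [Set.mem_ofPred_eq, not_forall, not_not] at hc1 hc2
    obtain ⟨p, hp, hp8, hpq⟩ := hc1
    obtain ⟨r, hr, hr8, hrq⟩ := hc2
    unfold Nat.ModEq at hp8 hr8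
    refine not_both (two q p r hp hr ?_ ?_ ?_ hpq hrq hq2) hqb
    · rintro rfl
      omega
    · omega
    · omega
  exact_mod_cast Set.ncard_le_ncard hsub ((Set.finite_Ioc 0 N).subset Set.inter_subset_right)

theorem result :
    (¬ ∀ q : ℕ, 2 < q → ((1 + Nat.totient q / 2 : ℕ) : Cardinal) ≤ Algebra.trdeg ℚ (F q)) ∧
    Algebra.trdeg ℚ (F 14) ≤ ((Nat.totient 14 / 2 : ℕ) : Cardinal) ∧
    (∀ q : ℕ, 2 < q → Algebra.trdeg ℚ (F q) ≤ ((1 + goodCard q : ℕ) : Cardinal)) ∧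
    (∀ q p : ℕ, 2 < q → p.Prime → p ∣ q → (∀ n : ℕ, (p : ZMod (q / p ^ q.factorization p)) ^ n ≠ -1) →
      Algebra.trdeg ℚ (F q) ≤ ((Nat.totient q / 2 : ℕ) : Cardinal)) ∧
    (∀ q p r : ℕ, 0 < q → p.Prime → r.Prime → p ≠ r → p % 4 = 3 → r % 4 = 3 → p ∣ q → r ∣ q →
      Algebra.trdeg ℚ (F q) ≤ ((Nat.totient q / 2 : ℕ) : Cardinal)) ∧
    (∀ ε : ℝ, 0 < ε → ∃ N₀ : ℕ, ∀ N : ℕ, N₀ ≤ N →
      (({q : ℕ | 2 < q ∧ q ≤ N ∧ ((1 + Nat.totient q / 2 : ℕ) : Cardinal) ≤ Algebra.trdeg ℚ (F q)}.ncard : ℕ) : ℝ) ≤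
        ε * N) := by
  refine ⟨fun h => ?_, fourteen 14 (by norm_num) (dvd_refl 14), bound, criterion, ?_, density⟩
  · exact not_both (fourteen 14 (by norm_num) (dvd_refl 14)) (h 14 (by norm_num))
  · intro q p r hq hp hr hpr hp4 hr4 hpq hrq
    refine two q p r hp hr hpr hp4 hr4 hpq hrq ?_
    have h1 := Nat.le_of_dvd hq hpq
    omega

end Pool.Agent.Results.MP_274814_nt.Disproof
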