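import Pool.Agent.U829.JX.Main
import Pool.Agent.U831.JE.Gam

set_option autoImplicit false

/-!
# At every height half of the values `Γ(a/q)` have no simple expansion

Let `q > 2`. The Lang-Rohrlich conjecture says that `φ(q)/2` of the numbers `Γ(a/q)`, `a` prime to `q`, are
algebraically independent (together with `π`).

An expansion of a real number `x` is a sequence of digits of `x` in one of finitely many algebraic bases (integers or
not; any digits `|a_i| ≤ B`), or the sequence of its partial quotients. Its height is `n log β` or the logarithm of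
the denominator of the convergent. For every `θ < 1` there is `c > 0` such that at every large height `Z` at least
`φ(q)/2` of the numbers `Γ(a/q)` have no expansion which up to the height `Z` can be cut into `c log Z` pieces of size
`Z^θ` (a single term or `U V V ... V V'`) or announced with `c log Z` errors by an automaton with `S` states,
`S log (M + 3) ≤ Z^θ`. The monomials `∏ Γ(r_i)^(m_i)` and `∏ Γ(1 - r_i)^(m_i)`, `∑ m_i ≠ 0`, are jointly irregular
(`JointlyIrregular`): any two expansions of these two numbers are apart at every scale. The same is true for the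
numbers `t^(a_i) π^(b_i)` with pairwise independent integer vectors `(a_i, b_i)`, `t` a monomial in Gamma values.

Proof. By the reflection formula the product of the two monomials is an algebraic multiple of a power of `π`; the
transcendence measure of `π` gives a joint measure of the two numbers (starting library, `R356.jointR_of_rel`, in the
form of `U831.JE.joint_monomial`). A piece gives an integer polynomial of bounded degree with a very small value at
the number (a norm from `ℚ(β)` for digits, the determinant of two pairs of convergents for partial quotients;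
`Pool.Agent.U829.AB`, `Pool.Agent.U829.CF`, `Pool.Agent.U829.JX`).
-/

namespace Pool.Agent.Results.MP_274814_nt.ExpansionsOfGammaValues

open Pool.Agent.U829.AB Pool.Agent.U829.JX
open Pool.Agent.R356 (JointR)

/-- digits exist -/
theorem digits (F : Finset ℝ) (hF : ∀ β ∈ F, 1 < β ∧ IsAlgebraic ℤ β) (B T : ℕ) (β : ℝ) (hβ : β ∈ F)
    (hB : β < B + 1) (x : ℝ) (hx : |x| < β ^ T) :
    ∃ (a : ℕ → ℤ) (h : ℕ → ℝ), DigitCode {β} B T x a h ∧ Code F B T x a h := by
  obtain ⟨a, h, hc⟩ := exists_code {β} B T β (Finset.mem_singleton_self β) (hF β hβ).1 hB x hx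
  refine ⟨a, h, hc, Or.inl ?_⟩
  obtain ⟨γ, hγ, h1⟩ := hc
  rw [Finset.mem_singleton] at hγ
  subst hγ
  exact ⟨_, hβ, h1⟩

theorem pair (F : Finset ℝ) (hF : ∀ β ∈ F, 1 < β ∧ IsAlgebraic ℤ β) (B T : ℕ) (u v : ℝ) (h : JointR u v) :
    JointlyIrregular F B T ![u, v] := by
  refine jointlyIrregular F hF B T _ fun i j hij => ?_
  fin_cases i <;> fin_cases j
  · exact absurd rfl hij
  · exact h
  · exact h.symm
  · exact absurd rfl hij

theorem simple_mono {F : Finset ℝ} {B T : ℕ} {θ c c' Z x : ℝ} (h : Simple F B T θ c Z x) (hc : c ≤ c')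
    (hZ : 1 ≤ Z) : Simple F B T θ c' Z x := by
  obtain ⟨a, hh, n, h1, h2, h3, h4⟩ := h
  have hl := Real.log_nonneg hZ
  have hm : c * Real.log Z ≤ c' * Real.log Z := mul_le_mul_of_nonneg_right hc hl
  refine ⟨a, hh, n, h1, h2, h3, ?_⟩
  rcases h4 with ⟨R, p, g1, g2, g3, g4⟩ | ⟨S, M, δ, g, s, g1, g2, g3⟩
  · exact Or.inl ⟨R, p, g1, g2, g3.trans hm, g4⟩
  · exact Or.inr ⟨S, M, δ, g, s, g1, g2, g3.trans hm⟩

theorem hard_mono {F : Finset ℝ} {B T S M n : ℕ} {x A A' : ℝ} (h : Hard F B T x A S M n) (hA : 1 ≤ A)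
    (hAA : A ≤ A') : Hard F B T x A' S M n := by
  intro a hh hc δ g s hg
  refine (h a hh hc δ g s hg).trans ?_
  have h1 : 0 ≤ Real.log ((M : ℝ) + 3) := by
    apply Real.log_nonneg
    have : (0 : ℝ) ≤ M := M.cast_nonneg
    linarith
  have h2 : A ^ (2 * (wrong δ g s a 1 n).ncard + 1) ≤ A' ^ (2 * (wrong δ g s a 1 n).ncard + 1) :=
    pow_le_pow_left₀ (by linarith) hAA _
  exact mul_le_mul_of_nonneg_left h2 (by positivity)

theorem half (q : ℕ) (hq : 2 < q) (P : ℝ → Prop)
    (h : ∀ a : ℕ, 1 ≤ a → a < q → P (Real.Gamma (a / q)) ∨ P (Real.Gamma (1 - a / q))) :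
    Nat.totient q ≤ 2 * {a : ℕ | a < q ∧ q.Coprime a ∧ P (Real.Gamma (a / q))}.ncard := by
  classical
  have hq0 : (q : ℝ) ≠ 0 := by exact_mod_cast (by omega : q ≠ 0)
  have h3 := Pool.Agent.U831.JE.half_count q hq (fun a => P (Real.Gamma (a / q))) (by
    intro a h1 h2
    rcases h a h1 h2 with h4 | h4
    · exact Or.inl h4
    · refine Or.inr ?_
      have e : (1 : ℝ) - a / q = ((q - a : ℕ) : ℝ) / q := by
        rw [Nat.cast_sub h2.le]; field_simp
      rw [e] at h4
      exact h4)
  have e2 : {a : ℕ | a < q ∧ q.Coprime a ∧ P (Real.Gamma (a / q))} =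
      (((Finset.range q).filter fun a => q.Coprime a ∧ P (Real.Gamma (a / q)) : Finset ℕ) : Set ℕ) := by
    ext a
    simp
  rw [e2, Set.ncard_coe_finset]
  exact h3

theorem joint_quot (q a : ℕ) (h1 : 1 ≤ a) (h2 : a < q) :
    JointR (Real.Gamma (a / q)) (Real.Gamma (1 - a / q)) := by
  have hq : (0 : ℚ) < q := by exact_mod_cast (by omega : 0 < q)
  have h := Pool.Agent.U831.JE.joint_gamma ((a : ℚ) / q)
    (div_pos (by exact_mod_cast (by omega : 0 < a)) hq) ((div_lt_one hq).2 (by exact_mod_cast h2))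
  push_cast at h
  exact h

/-- **Theorem.** Let `F` be a finite set of real algebraic numbers `β > 1` and `B`, `T` natural numbers.

(1) For `q > 2` and `θ < 1` there are `c > 0`, `Z₀` such that for all `Z ≥ Z₀` at least `φ(q)/2` of the numbers
`Γ(a/q)`, `0 ≤ a < q` prime to `q`, have no simple expansion at the height `Z`.

(2) For `q > 2` there is `A > 1` such that for all `S`, `M`, `n` at least `φ(q)/2` of these numbers are hard: for all
expansions and automata with `S` states announcing integers `≤ M`, `n ≤ S log (M + 3) A^(2 E + 1)`, `E` the number of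
wrong announcements before `n`.

(3) For rational `r i` between `0` and `1` and integers `m i` with a sum different from `0` the monomials
`∏ Γ(r i)^(m i)` and `∏ Γ(1 - r i)^(m i)` are jointly irregular.

(4) For every monomial `t = ∏ Γ(r i)^(m i)` with positive rational `r i` and all pairwise linearly independent
integer vectors `(a i, b i)` the numbers `t^(a i) π^(b i)` are jointly irregular.

(5) Digits exist: if `β ∈ F`, `β < B + 1` and `|x| < β^T` then `x` has such a sequence of digits in base `β`. -/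
theorem result (F : Finset ℝ) (hF : ∀ β ∈ F, 1 < β ∧ IsAlgebraic ℤ β) (B T : ℕ) :
    (∀ q : ℕ, 2 < q → ∀ θ : ℝ, θ < 1 → ∃ c Z₀ : ℝ, 0 < c ∧ ∀ Z : ℝ, Z₀ ≤ Z →
      Nat.totient q ≤
        2 * {a : ℕ | a < q ∧ q.Coprime a ∧ ¬ Simple F B T θ c Z (Real.Gamma (a / q))}.ncard) ∧
    (∀ q : ℕ, 2 < q → ∃ A : ℝ, 1 < A ∧ ∀ S M n : ℕ,
      Nat.totient q ≤ 2 * {a : ℕ | a < q ∧ q.Coprime a ∧ Hard F B T (Real.Gamma (a / q)) A S M n}.ncard) ∧
    (∀ (k : ℕ) (r : Fin k → ℚ), (∀ i, 0 < r i ∧ r i < 1) → ∀ m : Fin k → ℤ, ∑ i, m i ≠ 0 →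
      JointlyIrregular F B T ![∏ i, Real.Gamma (r i) ^ m i, ∏ i, Real.Gamma (1 - r i) ^ m i]) ∧
    (∀ (l : ℕ) (r : Fin l → ℚ), (∀ i, 0 < r i) → ∀ (m : Fin l → ℤ) (k : ℕ) (a b : Fin k → ℤ),
      (∀ i j, i ≠ j → a i * b j - b i * a j ≠ 0) →
      JointlyIrregular F B T fun i => (∏ j, Real.Gamma (r j) ^ m j) ^ a i * Real.pi ^ b i) ∧
    (∀ β ∈ F, β < B + 1 → ∀ x : ℝ, |x| < β ^ T → ∃ (a : ℕ → ℤ) (h : ℕ → ℝ), DigitCode {β} B T x a h ∧ Code F B T x a h) := by
  refine ⟨fun q hq θ hθ => ?_, fun q hq => ?_, fun k r hr m hm => ?_, fun l r hr m k a b h => ?_,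
    fun β hβ hB x hx => digits F hF B T β hβ hB x hx⟩
  · have h1 : ∀ a : ℕ, ∃ c Z₀ : ℝ, 0 < c ∧ (1 ≤ a → a < q → ∀ Z, Z₀ ≤ Z →
        ¬ (Simple F B T θ c Z (Real.Gamma (a / q)) ∧ Simple F B T θ c Z (Real.Gamma (1 - a / q)))) := by
      intro a
      by_cases ha : 1 ≤ a ∧ a < q
      · obtain ⟨c, Z₀, hc, h⟩ := (pair F hF B T _ _ (joint_quot q a ha.1 ha.2)).2 θ hθ
        refine ⟨c, Z₀, hc, fun _ _ Z hZ hs => ?_⟩
        exact absurd (h Z hZ 0 1 hs.1 hs.2) (by decide)
      · exact ⟨1, 0, one_pos, fun g1 g2 => absurd ⟨g1, g2⟩ ha⟩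
    choose c Z₀ hc h using h1
    have hne : (Finset.range q).Nonempty := Finset.nonempty_range_iff.2 (by omega)
    refine ⟨(Finset.range q).inf' hne c, max 1 ((Finset.range q).sup' hne Z₀),
      (Finset.lt_inf'_iff hne).2 fun a _ => hc a, fun Z hZ => ?_⟩
    have hZ1 : 1 ≤ Z := (le_max_left _ _).trans hZ
    refine half q hq (fun x => ¬ Simple F B T θ ((Finset.range q).inf' hne c) Z x) fun a ha1 ha2 => ?_
    by_contra hcon
    push Not at hcon
    have hm := Finset.mem_range.2 ha2
    have hc' : (Finset.range q).inf' hne c ≤ c a := Finset.inf'_le c hm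
    have hZ' : Z₀ a ≤ Z := ((Finset.le_sup' Z₀ hm).trans (le_max_right _ _)).trans hZ
    exact h a ha1 ha2 Z hZ' ⟨simple_mono hcon.1 hc' hZ1, simple_mono hcon.2 hc' hZ1⟩
  · have h1 : ∀ a : ℕ, ∃ A : ℝ, 1 < A ∧ (1 ≤ a → a < q → ∀ S M n : ℕ,
        Hard F B T (Real.Gamma (a / q)) A S M n ∨ Hard F B T (Real.Gamma (1 - a / q)) A S M n) := by
      intro a
      by_cases ha : 1 ≤ a ∧ a < q
      · obtain ⟨A, hA, -, -, h⟩ := (pair F hF B T _ _ (joint_quot q a ha.1 ha.2)).1
        refine ⟨A, hA, fun _ _ S M n => ?_⟩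
        by_contra hcon
        push Not at hcon
        exact absurd (h S M n 0 1 hcon.1 hcon.2) (by decide)
      · exact ⟨2, by norm_num, fun g1 g2 => absurd ⟨g1, g2⟩ ha⟩
    choose A hA h using h1
    have hne : (Finset.range q).Nonempty := Finset.nonempty_range_iff.2 (by omega)
    have hle : ∀ a, a < q → A a ≤ (Finset.range q).sup' hne A := fun a ha =>
      Finset.le_sup' A (Finset.mem_range.2 ha)
    refine ⟨(Finset.range q).sup' hne A, (hA 0).trans_le (hle 0 (by omega)), fun S M n => ?_⟩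
    refine half q hq (fun x => Hard F B T x ((Finset.range q).sup' hne A) S M n) fun a ha1 ha2 => ?_
    rcases h a ha1 ha2 S M n with h2 | h2
    · exact Or.inl (hard_mono h2 (hA a).le (hle a ha2))
    · exact Or.inr (hard_mono h2 (hA a).le (hle a ha2))
  · exact pair F hF B T _ _ (Pool.Agent.U831.JE.joint_monomial Finset.univ r
      (fun i _ => (hr i).1) (fun i _ => (hr i).2) m hm)
  · refine jointlyIrregular F hF B T _ fun i j hij => ?_
    refine Pool.Agent.U455.JA.joint_mono Real.pi Pool.Agent.TH456.TM.measT_pi _ ?_ (a i) (b i) (a j) (b j)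
      (h i j hij)
    refine Finset.prod_ne_zero_iff.2 fun n _ => zpow_ne_zero _ (Real.Gamma_pos_of_pos ?_).ne'
    exact_mod_cast hr n

end Pool.Agent.Results.MP_274814_nt.ExpansionsOfGammaValues
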