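import Pool.Agent.U831.JE.Gam

/-!
# At every scale half of the values `Γ(a/q)` have equidistributed multiples

Let `q > 2`. The Lang-Rohrlich conjecture says that `φ(q)/2` of the numbers `Γ(a/q)`, `a` prime to
`q`, are algebraically independent (together with `π`). Fix a degree `D`. We show that there is
`c > 0` such that for all large `N` at least `φ(q)/2` of the numbers `x = Γ(a/q)` are *good at the
scale `N`*: for ALL nonconstant integer polynomials `f` of degree at most `D` with coefficients at
most `N ^ c` the multiples `n f(x)`, `n < N`, are equidistributed modulo one with discrepancy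
`N ^ (-c)`, uniformly in all shifts; more precisely `Γ(a/q)` or `Γ(1 - a/q)` is good at the scale `N`
for every `a`. The same holds for every monomial `∏ Γ(r_i) ^ m_i`, `∑ m_i ≠ 0`, with rational `r_i`
between `0` and `1`, and the reflected monomial `∏ Γ(1 - r_i) ^ m_i`.

Proof. Counting in blocks of two lengths, a number `x` which is not good at the scale `N` has a
polynomial `P` (of degree at most `D`, with coefficients at most `N ^ (4 c)`) with
`|P(x)| ≤ 20 N ^ (c - 1)`. By the reflection formula the product of the two monomials is an algebraic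
multiple of a power of `π`, and the transcendence measure of `π` gives a joint measure of the two
numbers (starting library, `Pool.Agent.R356.jointR_of_rel`), which excludes two such polynomials.
-/

set_option autoImplicit false

namespace Pool.Agent.Results.MP_274814_nt.HalfEquidistributedAtEveryScale

open Polynomial

/-- The number of `n < N` with the fractional part of `n α + γ` in `[u, v)`. -/
noncomputable def count (α γ u v : ℝ) (N : ℕ) : ℕ :=
  ((Finset.range N).filter fun n : ℕ =>
    u ≤ Int.fract (n * α + γ) ∧ Int.fract (n * α + γ) < v).card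

/-- The sequence `n α + γ` (`n < N`) modulo one has discrepancy at most `Δ`, for every shift `γ`. -/
def DiscrepancyLe (α : ℝ) (N : ℕ) (Δ : ℝ) : Prop :=
  ∀ γ u v : ℝ, 0 ≤ u → u ≤ v → v ≤ 1 → |(count α γ u v N : ℝ) - (v - u) * N| ≤ Δ * N

/-- `x` is good at the scale `N`: the multiples of all the numbers `f(x)`, where `f` is a
nonconstant integer polynomial of degree at most `D` with coefficients at most `N ^ c`, are
equidistributed with discrepancy at most `N ^ (-c)`. -/
def Good (D : ℕ) (c : ℝ) (N : ℕ) (x : ℝ) : Prop :=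
  ∀ f : ℤ[X], 1 ≤ f.natDegree → f.natDegree ≤ D → (∀ k, |(f.coeff k : ℝ)| ≤ (N : ℝ) ^ c) →
    DiscrepancyLe (aeval x f) N ((N : ℝ) ^ (-c))

theorem result :
    -- the values `Γ(a/q)`
    (∀ q : ℕ, 2 < q → ∀ D : ℕ, ∃ c : ℝ, 0 < c ∧ ∃ N₀ : ℕ, ∀ N : ℕ, N₀ ≤ N →
      (∀ a : ℕ, 1 ≤ a → a < q →
        Good D c N (Real.Gamma (a / q)) ∨ Good D c N (Real.Gamma (1 - a / q))) ∧
      Nat.totient q ≤ 2 * {a : ℕ | a < q ∧ q.Coprime a ∧ Good D c N (Real.Gamma (a / q))}.ncard) ∧
    -- monomials in Gamma values and the reflected monomials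
    (∀ (k : ℕ) (r : Fin k → ℚ), (∀ i, 0 < r i ∧ r i < 1) → ∀ m : Fin k → ℤ, ∑ i, m i ≠ 0 →
      ∀ D : ℕ, ∃ c : ℝ, 0 < c ∧ ∃ N₀ : ℕ, ∀ N : ℕ, N₀ ≤ N →
        Good D c N (∏ i, Real.Gamma (r i) ^ m i) ∨
          Good D c N (∏ i, Real.Gamma (1 - r i) ^ m i)) := by
  classical
  refine ⟨fun q hq D => ?_, fun k r hr m hm D => ?_⟩
  · obtain ⟨c, hc, N₀, h⟩ := Pool.Agent.U831.JE.gamma_half q hq D
    refine ⟨c, hc, N₀, fun N hN => ⟨fun a h1 h2 => h N hN a h1 h2, ?_⟩⟩
    have hq0 : (q : ℝ) ≠ 0 := by exact_mod_cast (by omega : q ≠ 0)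
    have h3 := Pool.Agent.U831.JE.half_count q hq
      (fun a => Good D c N (Real.Gamma (a / q))) (by
        intro a h1 h2
        rcases h N hN a h1 h2 with h4 | h4
        · exact Or.inl h4
        · refine Or.inr ?_
          have e : (1 : ℝ) - a / q = ((q - a : ℕ) : ℝ) / q := by
            rw [Nat.cast_sub h2.le]; field_simp
          rw [e] at h4
          exact h4)
    have e2 : {a : ℕ | a < q ∧ q.Coprime a ∧ Good D c N (Real.Gamma (a / q))} =
        (((Finset.range q).filter fun a => q.Coprime a ∧ Good D c N (Real.Gamma (a / q)) :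
          Finset ℕ) : Set ℕ) := by
      ext a
      simp
    rw [e2, Set.ncard_coe_finset]
    exact h3
  · exact Pool.Agent.U831.JE.joint_good _ _ (Pool.Agent.U831.JE.joint_monomial Finset.univ r
      (fun i _ => (hr i).1) (fun i _ => (hr i).2) m hm) D

end Pool.Agent.Results.MP_274814_nt.HalfEquidistributedAtEveryScale
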